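import Mathlib
import Pool.Agent.H9.MP4ec73fDefs
import Pool.Agent.H9.MP4ec73fProof

set_option autoImplicit false

namespace Pool.Agent.Results.MP_4ec73f_lc.Max

open Cardinal Pool.Agent.H9.MP4ec73f

/-- There are `2 ^ 2 ^ 𝔠` pairwise non-isomorphic Boolean algebras of sets of reals. -/
theorem result : ∃ 𝓕 : Set (Set (Set ℝ)), #𝓕 = (2 : Cardinal) ^ ((2 : Cardinal) ^ 𝔠) ∧
    (∀ B ∈ 𝓕, IsAlgebraOfSets B) ∧ ∀ B ∈ 𝓕, ∀ C ∈ 𝓕, B ≠ C → ¬ Isomorphic B C :=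
  main

end Pool.Agent.Results.MP_4ec73f_lc.Max
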